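import Pool.Agent.Q183.ZL.Zero
import Pool.Agent.Y957.MC.Poly

/-!
Several flows: polynomial times in the good case (MP_f720ae_an).
-/

set_option autoImplicit false

namespace Pool.Agent.Q183.ZL

open MeasureTheory Filter Finset Topology
open scoped ENNReal
open Pool.Agent.Y957.MC (IsFlow poly_times detg_all)
open Pool.Agent.W761.Tail (A)
open Pool.Agent.Q183.CF (bdd_of_memLp A_Icc)

universe u

variable {X : Type u} [MeasurableSpace X] {μ : Measure X} {m : ℕ} {τ : Fin m → ℝ → X → X}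

theorem A_term (hτ : ∀ j, IsFlow μ (τ j)) (a : ℝ) (f : Fin m → X → ℂ) (x : X) :
    (A fun n => term (fun j => τ j a) f n x) = fun N : ℕ => (1 / (N : ℂ)) * ∑ n ∈ Icc 1 N, ∏ j, f j (τ j (a * n) x) := by
  funext N
  have h3 := A_Icc (fun n => orb τ f x (a * n)) N
  have e1 : (fun n => term (fun j => τ j a) f n x) = fun n : ℕ => (fun n : ℕ => orb τ f x (a * n)) (n + 1) := by
    funext n
    exact term_eq hτ a f n x
  rw [e1, h3]
  rfl

/-- polynomial times -/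
theorem poly (hτ : ∀ j, IsFlow μ (τ j)) [IsProbabilityMeasure μ] {f : Fin m → X → ℂ}
    (hf : ∀ j, MemLp (f j) ∞ μ) (hc : CCvg μ τ f) :
    ∃ F : X → ℂ, (∀ᵐ x ∂μ, Tendsto (fun V : ℝ => (1 / (V : ℂ)) * ∫ v in (0 : ℝ)..V, orb τ f x v) atTop (𝓝 (F x))) ∧
      ∀ᵐ a : ℝ, 0 < a → ∀ᵐ x ∂μ, ∀ P : Polynomial ℤ, 0 < P.natDegree → 0 < P.leadingCoeff →
        Tendsto (fun N : ℕ => (1 / (N : ℂ)) * ∑ n ∈ Icc 1 N, ∏ j, f j (τ j (a * ((P.eval (n : ℤ) : ℤ) : ℝ)) x))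
          atTop (𝓝 (F x)) := by
  classical
  have h0 : ∀ᵐ x ∂μ, ∃ L : ℂ, Tendsto (fun V : ℝ => (1 / (V : ℂ)) * ∫ v in (0 : ℝ)..V, orb τ f x v) atTop (𝓝 L) := hc
  set F : X → ℂ := fun x => if h : ∃ L : ℂ, Tendsto (fun V : ℝ => (1 / (V : ℂ)) * ∫ v in (0 : ℝ)..V, orb τ f x v)
    atTop (𝓝 L) then h.choose else 0 with hF
  have h1 : ∀ᵐ x ∂μ, Tendsto (fun V : ℝ => (1 / (V : ℂ)) * ∫ v in (0 : ℝ)..V, orb τ f x v) atTop (𝓝 (F x)) := by
    filter_upwards [h0] with x hx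
    simp only [hF, dif_pos hx]
    exact hx.choose_spec
  refine ⟨F, h1, ?_⟩
  filter_upwards [disc_iff hτ hf, poly_times detg_all hτ (fun j => (hf j).1) fun j => bdd_of_memLp (hf j)]
    with a ha1 ha2 ha0
  filter_upwards [ha1 ha0, ha2 ha0, h1] with x hx1 hx2 hx3 P hP1 hP2
  have h4 := (hx1 (F x)).2 hx3
  rw [A_term hτ] at h4
  exact hx2 (F x) h4 P hP1 hP2

end Pool.Agent.Q183.ZL
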