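import Pool.Agent.Q183.ZL.Zero
import Pool.Agent.Q183.CF.Susp

/-!
Suspension flows of several invertible maps over a torus (MP_f720ae_an).
-/

set_option autoImplicit false

namespace Pool.Agent.Q183.ZL

open MeasureTheory Filter Finset Topology
open scoped ENNReal
open Pool.Agent.Y957.MC (IsFlow)
open Pool.Agent.W761.Tail (A A_bound)
open Pool.Agent.Q183.CF (𝕋 rep rep_nonneg rep_lt coe_rep rep_coe rep_add rep_meas floor_rep zpow_mp BMe shift_avg)

universe u

variable {X : Type u} [MeasurableSpace X] {μ : Measure X} {m : ℕ}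

/-- the vector with coordinate `t` at `j` and `0` elsewhere -/
noncomputable def sg (j : Fin m) (t : ℝ) : Fin m → 𝕋 := fun i => if i = j then (t : 𝕋) else 0

theorem sg_same (j : Fin m) (t : ℝ) : sg j t j = (t : 𝕋) := if_pos rfl

theorem sg_ne {i j : Fin m} (h : i ≠ j) (t : ℝ) : sg j t i = 0 := if_neg h

theorem sg_add (j : Fin m) (a b : ℝ) : sg j (a + b) = sg j a + sg j b := by
  funext i
  simp only [sg, Pi.add_apply]
  split_ifs
  · rw [AddCircle.coe_add]
  · rw [add_zero]

theorem sg_zero (j : Fin m) : sg j 0 = 0 := by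
  funext i
  simp only [sg, AddCircle.coe_zero, Pi.zero_apply, ite_self]

theorem sg_one (j : Fin m) : sg j 1 = 0 := by
  funext i
  simp only [sg, AddCircle.coe_period, Pi.zero_apply, ite_self]

theorem sg_meas (j : Fin m) : Measurable (sg j : ℝ → Fin m → 𝕋) := by
  rw [measurable_pi_iff]
  intro i
  by_cases hij : i = j
  · subst hij
    simp only [sg_same]
    exact AddCircle.measurable_mk'
  · simp only [sg_ne hij]
    exact measurable_const

/-- the suspension flow of `T j` along the coordinate `j` of the torus -/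
noncomputable def msus (T : Fin m → Equiv.Perm X) (j : Fin m) (t : ℝ) (p : (Fin m → 𝕋) × X) : (Fin m → 𝕋) × X :=
  (p.1 + sg j t, (T j ^ ⌊rep (p.1 j) + t⌋ : Equiv.Perm X) p.2)

theorem msus_flow [SFinite μ] {T : Fin m → Equiv.Perm X} (hT : ∀ j, MeasurePreserving (T j) μ μ)
    (hTm : ∀ j, Measurable (T j).symm) (j : Fin m) :
    IsFlow ((volume : Measure (Fin m → 𝕋)).prod μ) (msus T j) := by
  have hj : Measurable fun q : X × ℤ => (T j ^ q.2 : Equiv.Perm X) q.1 :=
    measurable_from_prod_countable_left fun n => (zpow_mp (hT j) (hTm j) n).measurable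
  refine ⟨?_, ?_, ?_, ?_⟩
  · unfold msus
    refine Measurable.prodMk ?_ ?_
    · exact (measurable_fst.comp measurable_snd).add ((sg_meas j).comp measurable_fst)
    · refine hj.comp ((measurable_snd.comp measurable_snd).prodMk (Int.measurable_floor.comp ?_))
      exact (rep_meas.comp ((measurable_pi_apply j).comp (measurable_fst.comp measurable_snd))).add measurable_fst
  · rintro ⟨s, x⟩
    simp only [msus, sg_zero, add_zero, floor_rep, zpow_zero, Equiv.Perm.coe_one, id_eq]
  · rintro t1 t2 ⟨s, x⟩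
    simp only [msus]
    refine Prod.ext ?_ ?_
    · simp only [sg_add]
      rw [add_comm (sg j t1), add_assoc]
    · simp only [Pi.add_apply, sg_same]
      rw [rep_add, ← Equiv.Perm.mul_apply, ← zpow_add]
      congr 3
      rw [Int.fract]
      have e : rep (s j) + t2 - (⌊rep (s j) + t2⌋ : ℝ) + t1 = rep (s j) + (t1 + t2) - (⌊rep (s j) + t2⌋ : ℝ) := by ring
      rw [e, Int.floor_sub_intCast]
      ring
  · intro t
    refine MeasurePreserving.skew_product (f := fun s : Fin m → 𝕋 => s + sg j t)
      (g := fun s x => (T j ^ ⌊rep (s j) + t⌋ : Equiv.Perm X) x)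
      (measurePreserving_add_right volume (sg j t)) ?_
      (ae_of_all _ fun s => (zpow_mp (hT j) (hTm j) _).map_eq)
    refine hj.comp (measurable_snd.prodMk (Int.measurable_floor.comp ?_))
    exact (rep_meas.comp ((measurable_pi_apply j).comp measurable_fst)).add_const t

/-- the suspension flows of commuting maps commute -/
theorem msus_comm {T : Fin m → Equiv.Perm X} (hc : ∀ i j, Commute (T i) (T j)) (i j : Fin m) (a b : ℝ)
    (p : (Fin m → 𝕋) × X) : msus T i a (msus T j b p) = msus T j b (msus T i a p) := by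
  obtain ⟨s, x⟩ := p
  simp only [msus]
  by_cases hij : i = j
  · subst hij
    refine Prod.ext ?_ ?_
    · simp only
      rw [add_assoc, add_assoc, add_comm (sg i b)]
    · simp only [Pi.add_apply, sg_same]
      rw [rep_add, rep_add, ← Equiv.Perm.mul_apply, ← Equiv.Perm.mul_apply, ← zpow_add, ← zpow_add]
      have key : ⌊Int.fract (rep (s i) + b) + a⌋ + ⌊rep (s i) + b⌋ =
          ⌊Int.fract (rep (s i) + a) + b⌋ + ⌊rep (s i) + a⌋ := by
        rw [Int.fract, Int.fract]
        have e1 : rep (s i) + b - (⌊rep (s i) + b⌋ : ℝ) + a = rep (s i) + (a + b) - (⌊rep (s i) + b⌋ : ℝ) := by ring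
        have e2 : rep (s i) + a - (⌊rep (s i) + a⌋ : ℝ) + b = rep (s i) + (a + b) - (⌊rep (s i) + a⌋ : ℝ) := by ring
        rw [e1, e2, Int.floor_sub_intCast, Int.floor_sub_intCast]
        ring
      rw [key]
  · refine Prod.ext ?_ ?_
    · simp only
      rw [add_assoc, add_assoc, add_comm (sg j b)]
    · have hji : j ≠ i := fun h => hij h.symm
      simp only [Pi.add_apply, sg_ne hij, sg_ne hji, add_zero]
      rw [← Equiv.Perm.mul_apply, ← Equiv.Perm.mul_apply]
      rw [((hc i j).zpow_zpow _ _).eq]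

theorem msus_one (T : Fin m → Equiv.Perm X) (j : Fin m) (p : (Fin m → 𝕋) × X) :
    msus T j 1 p = (p.1, T j p.2) := by
  obtain ⟨s, x⟩ := p
  simp only [msus]
  refine Prod.ext ?_ ?_
  · simp only
    rw [sg_one, add_zero]
  · simp only
    rw [Int.floor_add_one, floor_rep, zero_add, zpow_one]

theorem msus_one_iter (T : Fin m → Equiv.Perm X) (j : Fin m) (k : ℕ) (p : (Fin m → 𝕋) × X) :
    (msus T j 1)^[k] p = (p.1, (T j)^[k] p.2) := by
  induction k with
  | zero => rfl
  | succ k ih => rw [Function.iterate_succ_apply', ih, msus_one, Function.iterate_succ_apply']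

/-- the maps `T j` and the products `id × T j` -/
theorem cvg_one [IsProbabilityMeasure μ] {T : Fin m → Equiv.Perm X} (hT : ∀ j, MeasurePreserving (T j) μ μ)
    (h : CvgAll μ (fun j => T j)) : CvgAll ((volume : Measure (Fin m → 𝕋)).prod μ) (fun j => msus T j 1) := by
  intro F hF
  have hm : MeasurableSet {p : (Fin m → 𝕋) × X | ∃ L, Tendsto (fun N => A (fun n => term (fun j => msus T j 1) F n p) N)
      atTop (𝓝 L)} := by
    apply measurableSet_exists_tendsto
    intro N
    unfold A
    refine Measurable.const_mul (Finset.measurable_fun_sum _ fun n _ => ?_) _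
    unfold term
    refine Finset.measurable_fun_prod _ fun j _ => (hF j).1.comp ?_
    have e : (msus T j 1)^[n + 1] = fun p : (Fin m → 𝕋) × X => (p.1, (T j)^[n + 1] p.2) :=
      funext fun p => msus_one_iter T j _ p
    rw [e]
    exact measurable_fst.prodMk (((hT j).measurable.iterate _).comp measurable_snd)
  refine (Measure.ae_prod_iff_ae_ae hm).2 (ae_of_all _ fun s => ?_)
  have h1 := h (fun j x => F j (s, x)) fun j => by
    obtain ⟨C, hC⟩ := (hF j).2
    exact ⟨(hF j).1.comp measurable_prodMk_left, C, fun x => hC _⟩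
  filter_upwards [h1] with x hx
  obtain ⟨L, hL⟩ := hx
  refine ⟨L, hL.congr fun N => ?_⟩
  congr 1
  funext n
  unfold term
  refine Finset.prod_congr rfl fun j _ => ?_
  rw [msus_one_iter]

theorem orb_ii {Y : Type u} [MeasurableSpace Y] {ν : Measure Y} {τ : Fin m → ℝ → Y → Y} (hτ : ∀ j, IsFlow ν (τ j))
    {F : Fin m → Y → ℂ} (hF : ∀ j, BMe (F j)) (y : Y) (V W : ℝ) :
    IntervalIntegrable (fun v => orb τ F y v) volume V W := by
  have hom := orb_meas hτ (fun j => (hF j).1)
  have hFm : Measurable fun v : ℝ => orb τ F y v := hom.comp (measurable_id.prodMk measurable_const)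
  choose hFm' CF hCF using hF
  have hFC : ∀ j p, ‖F j p‖ ≤ ∑ l, |CF l| := fun j p => ((hCF j p).trans (le_abs_self _)).trans
    (Finset.single_le_sum (f := fun l => |CF l|) (fun _ _ => abs_nonneg _) (Finset.mem_univ j))
  rw [intervalIntegrable_iff]
  exact Measure.integrableOn_of_bounded (M := (∑ l, |CF l|) ^ m) (by simp) hFm.aestronglyMeasurable
    (ae_of_all _ fun r => orb_bound (τ := τ) hFC y r)

theorem small_pos {ε : ℝ} (hε0 : 0 < ε) (hε1 : ε < 1) :
    (volume : Measure (Fin m → 𝕋)) {s | ∀ j, rep (s j) < ε} ≠ 0 := by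
  have e : {s : Fin m → 𝕋 | ∀ j, rep (s j) < ε} = Set.pi Set.univ fun _ => {u : 𝕋 | rep u < ε} := by
    ext s
    simp
  rw [e, volume_pi_pi, Finset.prod_ne_zero_iff]
  intro j _ h0
  have h1 : ∀ᵐ u : 𝕋, ¬ rep u < ε := by
    rw [ae_iff]
    simpa using h0
  have h4 := (AddCircle.measurePreserving_mk (1 : ℝ) 0).quasiMeasurePreserving.ae h1
  rw [ae_restrict_iff' measurableSet_Ioc] at h4
  have h5 : (volume : Measure ℝ) (Set.Ioo 0 ε) ≠ 0 := by
    rw [Real.volume_Ioo, sub_zero]
    exact (ENNReal.ofReal_pos.2 hε0).ne'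
  apply h5
  refine measure_mono_null ?_ (ae_iff.mp h4)
  intro y hy
  simp only [Set.mem_ofPred_eq]
  intro h6
  have h7 : rep ((y : ℝ) : 𝕋) < ε := by
    rw [rep_coe, Int.fract_eq_self.2 ⟨hy.1.le, by linarith [hy.2]⟩]
    exact hy.2
  exact h6 ⟨hy.1, by linarith [hy.2]⟩ h7

/-- from the suspension flows back to the maps -/
theorem cvg_of_msus [IsProbabilityMeasure μ] {T : Fin m → Equiv.Perm X} (hT : ∀ j, MeasurePreserving (T j) μ μ)
    (hTm : ∀ j, Measurable (T j).symm) (hm : 0 < m)
    (h : CCvgAll ((volume : Measure (Fin m → 𝕋)).prod μ) (msus T)) : CvgAll μ (fun j => T j) := by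
  intro f hf
  -- the window
  obtain ⟨ε, hε⟩ : ∃ ε : ℝ, ε = 1 / 4 := ⟨_, rfl⟩
  have hε0 : 0 < ε := by rw [hε]; norm_num
  have hε4 : 3 * ε < 1 := by rw [hε]; norm_num
  let w : 𝕋 → ℂ := fun s => if ε ≤ rep s ∧ rep s < 2 * ε then 1 else 0
  have hw : Measurable w := Measurable.ite ((measurableSet_le measurable_const rep_meas).inter
    (measurableSet_lt rep_meas measurable_const)) measurable_const measurable_const
  let F : Fin m → (Fin m → 𝕋) × X → ℂ := fun j p => (if (j : ℕ) = 0 then w (p.1 j) else 1) * f j p.2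
  have hF : ∀ j, BMe (F j) := by
    intro j
    obtain ⟨C, hC⟩ := (hf j).2
    refine ⟨?_, |C|, fun p => ?_⟩
    · refine Measurable.mul ?_ ((hf j).1.comp measurable_snd)
      by_cases hj : (j : ℕ) = 0
      · simp only [hj, if_true]
        exact hw.comp ((measurable_pi_apply j).comp measurable_fst)
      · simp only [hj, if_false]
        exact measurable_const
    · simp only [F, w]
      rw [norm_mul]
      have h1 : ‖(if (j : ℕ) = 0 then (if ε ≤ rep (p.1 j) ∧ rep (p.1 j) < 2 * ε then (1 : ℂ) else 0) else 1)‖ ≤ 1 := by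
        split_ifs <;> simp
      calc _ ≤ 1 * |C| := mul_le_mul h1 ((hC _).trans (le_abs_self _)) (norm_nonneg _) zero_le_one
        _ = |C| := one_mul _
  have h1 := h F hF
  unfold CCvg at h1
  -- a good point of the torus
  have h2 : ∀ᵐ s : Fin m → 𝕋, ∀ᵐ x ∂μ, ∃ L : ℂ, Tendsto (fun V : ℝ => (1 / (V : ℂ)) *
      ∫ v in (0 : ℝ)..V, orb (msus T) F (s, x) v) atTop (𝓝 L) := Measure.ae_ae_of_ae_prod h1
  have h3 : ∃ s : Fin m → 𝕋, (∀ j, rep (s j) < ε) ∧ ∀ᵐ x ∂μ, ∃ L : ℂ, Tendsto (fun V : ℝ => (1 / (V : ℂ)) *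
      ∫ v in (0 : ℝ)..V, orb (msus T) F (s, x) v) atTop (𝓝 L) := by
    by_contra hne'
    have hne : ∀ s : Fin m → 𝕋, (∀ j, rep (s j) < ε) → ¬ ∀ᵐ x ∂μ, ∃ L : ℂ, Tendsto (fun V : ℝ => (1 / (V : ℂ)) *
        ∫ v in (0 : ℝ)..V, orb (msus T) F (s, x) v) atTop (𝓝 L) := fun s hs h => hne' ⟨s, hs, h⟩
    apply small_pos (m := m) hε0 (by linarith)
    refine measure_mono_null ?_ (ae_iff.mp h2)
    intro s hs
    exact hne s hs
  obtain ⟨s, hs, h4⟩ := h3
  have hs0 := fun j => rep_nonneg (s j)
  set o : Fin m := ⟨0, hm⟩ with ho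
  filter_upwards [h4] with x hx
  obtain ⟨L, hL⟩ := hx
  let b : ℕ → ℂ := fun n => ∏ j : Fin m, f j ((T j)^[n] x)
  -- the integrand
  have horb : ∀ (n : ℕ) (v : ℝ), (n : ℝ) ≤ v → v < n + 1 →
      orb (msus T) F (s, x) v = if (n + ε - rep (s o) ≤ v ∧ v < n + 2 * ε - rep (s o)) then b n else 0 := by
    intro n v hv0 hv1
    have hso := hs o
    have hso0 := hs0 o
    split_ifs with hc
    · -- inside the window
      unfold orb
      refine Finset.prod_congr rfl fun j _ => ?_
      have hsj := hs j
      have hsj0 := hs0 j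
      have hfl : ⌊rep (s j) + v⌋ = (n : ℤ) := by
        rw [Int.floor_eq_iff]
        push_cast
        constructor
        · linarith
        · linarith [hc.2]
      simp only [F, msus]
      rw [hfl, zpow_natCast, Equiv.Perm.coe_pow]
      by_cases hj : (j : ℕ) = 0
      · have hjo : j = o := Fin.ext hj
        have hwin : w ((s + sg j v) j) = 1 := by
          simp only [w]
          rw [if_pos]
          rw [Pi.add_apply, sg_same, rep_add, hjo]
          have h7 : Int.fract (rep (s o) + v) = rep (s o) + v - n := by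
            rw [Int.fract_eq_iff]
            refine ⟨by linarith [hc.1], by linarith [hc.2], ⟨(n : ℤ), by push_cast; ring⟩⟩
          rw [h7]
          constructor <;> linarith [hc.1, hc.2]
        rw [if_pos hj, hwin, one_mul]
      · rw [if_neg hj, one_mul]
    · -- outside the window
      unfold orb
      refine Finset.prod_eq_zero (Finset.mem_univ o) ?_
      simp only [F, msus]
      have ho0 : (o : ℕ) = 0 := rfl
      have hwin : w ((s + sg o v) o) = 0 := by
        simp only [w]
        rw [if_neg]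
        rw [Pi.add_apply, sg_same, rep_add]
        intro h8
        apply hc
        rcases lt_or_ge (rep (s o) + v) (n + 1) with h9 | h9
        · have h7 : Int.fract (rep (s o) + v) = rep (s o) + v - n := by
            rw [Int.fract_eq_iff]
            refine ⟨by linarith, by linarith, ⟨(n : ℤ), by push_cast; ring⟩⟩
          rw [h7] at h8
          constructor <;> linarith [h8.1, h8.2]
        · have h7 : Int.fract (rep (s o) + v) = rep (s o) + v - (n + 1) := by
            rw [Int.fract_eq_iff]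
            refine ⟨by linarith, by linarith, ⟨(n : ℤ) + 1, by push_cast; ring⟩⟩
          rw [h7] at h8
          linarith [h8.1]
      rw [if_pos ho0, hwin, zero_mul]
  have hso := hs o
  have hso0 := hs0 o
  -- the integrals
  have hint : ∀ n : ℕ, ∫ v in (n : ℝ)..((n + 1 : ℕ) : ℝ), orb (msus T) F (s, x) v = (ε : ℂ) * b n := by
    intro n
    have e1 : ∫ v in (n : ℝ)..((n + 1 : ℕ) : ℝ), orb (msus T) F (s, x) v =
        ∫ v in (n : ℝ)..((n + 1 : ℕ) : ℝ),
          (Set.Ico (n + ε - rep (s o)) (n + 2 * ε - rep (s o))).indicator (fun _ => b n) v := by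
      apply intervalIntegral.integral_congr_ae
      have hne : ∀ᵐ t : ℝ, t ≠ ((n + 1 : ℕ) : ℝ) := by
        rw [ae_iff]
        simp
      filter_upwards [hne] with v hv hmem
      rw [Set.uIoc_of_le (by push_cast; linarith)] at hmem
      have hv1 : v < n + 1 := by
        refine lt_of_le_of_ne ?_ ?_
        · have := hmem.2
          push_cast at this
          exact this
        · push_cast at hv
          exact hv
      rw [horb n v hmem.1.le hv1]
      simp only [Set.indicator, Set.mem_Ico]
    rw [e1, intervalIntegral.integral_of_le (by push_cast; linarith),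
      integral_indicator measurableSet_Ico, Measure.restrict_restrict measurableSet_Ico]
    have e2 : Set.Ico ((n : ℝ) + ε - rep (s o)) (n + 2 * ε - rep (s o)) ∩ Set.Ioc (n : ℝ) ((n + 1 : ℕ) : ℝ) =
        Set.Ico ((n : ℝ) + ε - rep (s o)) (n + 2 * ε - rep (s o)) := by
      apply Set.inter_eq_left.2
      intro v hv
      push_cast
      exact ⟨by linarith [hv.1], by linarith [hv.2]⟩
    rw [e2, integral_const, measureReal_restrict_apply_univ, Real.volume_real_Ico_of_le (by linarith),
      Complex.real_smul]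
    have e3 : (n : ℝ) + 2 * ε - rep (s o) - (n + ε - rep (s o)) = ε := by ring
    rw [e3]
  have hFi : ∀ V W : ℝ, IntervalIntegrable (fun v => orb (msus T) F (s, x) v) volume V W := fun V W =>
    orb_ii (ν := (volume : Measure (Fin m → 𝕋)).prod μ) (msus_flow hT hTm) hF (s, x) V W
  have hsum : ∀ N : ℕ, ∫ v in (0 : ℝ)..(N : ℝ), orb (msus T) F (s, x) v = (ε : ℂ) * ∑ n ∈ range N, b n := by
    intro N
    induction N with
    | zero => simp
    | succ N ih =>
      rw [← intervalIntegral.integral_add_adjacent_intervals (hFi 0 N) (hFi N _), ih, hint, sum_range_succ]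
      ring
  have hεc : (ε : ℂ) ≠ 0 := by exact_mod_cast hε0.ne'
  have h5 := (hL.comp tendsto_natCast_atTop_atTop).const_mul ((ε : ℂ)⁻¹)
  have h6 : Tendsto (fun N : ℕ => (1 / (N : ℂ)) * ∑ n ∈ range N, b n) atTop (𝓝 ((ε : ℂ)⁻¹ * L)) := by
    refine h5.congr fun N => ?_
    simp only [Function.comp_apply, Complex.ofReal_natCast]
    rw [hsum]
    field_simp
  have hf' := hf
  choose hfm CG hCG using hf'
  have hC : ∀ j x, ‖f j x‖ ≤ ∑ l, |CG l| := fun j x => ((hCG j x).trans (le_abs_self _)).trans
    (Finset.single_le_sum (f := fun l => |CG l|) (fun _ _ => abs_nonneg _) (Finset.mem_univ j))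
  refine ⟨_, shift_avg b (C := (∑ l, |CG l|) ^ m) (fun n => ?_) h6⟩
  rw [norm_prod]
  refine (Finset.prod_le_prod (fun _ _ => norm_nonneg _) fun j _ => hC j _).trans ?_
  rw [Finset.prod_const, Finset.card_univ, Fintype.card_fin]

end Pool.Agent.Q183.ZL
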