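import Pool.Agent.Q183.ZL.Closed

/-!
Several flows: one good time gives the continuous averages, and these almost every time (MP_f720ae_an).
-/

set_option autoImplicit false

namespace Pool.Agent.Q183.ZL

open MeasureTheory Filter Finset Topology
open scoped ENNReal
open Pool.Agent.Y957.MC (IsFlow Bes bes_conv orb_prod_meas cont_of_disc)
open Pool.Agent.W761.Tail (A A_bound)
open Pool.Agent.Q183.CF (BMe bme_of_memLp bdd_of_memLp bes_one mean_one rad rad_norm rad_dist rad_meas A_Icc)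

universe u

variable {X : Type u} [MeasurableSpace X] {μ : Measure X} {m : ℕ} {τ : Fin m → ℝ → X → X}

/-- the product along the orbits -/
def orb (τ : Fin m → ℝ → X → X) (f : Fin m → X → ℂ) (x : X) (v : ℝ) : ℂ := ∏ j : Fin m, f j (τ j v x)

/-- convergence almost everywhere of the continuous averages -/
def CCvg (μ : Measure X) (τ : Fin m → ℝ → X → X) (f : Fin m → X → ℂ) : Prop :=
  ∀ᵐ x ∂μ, ∃ L : ℂ, Tendsto (fun V : ℝ => (1 / (V : ℂ)) * ∫ v in (0 : ℝ)..V, orb τ f x v) atTop (𝓝 L)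

/-- iterates of the time `a` map -/
theorem iter {σ : ℝ → X → X} (hσ : IsFlow μ σ) (a : ℝ) (n : ℕ) (x : X) : (σ a)^[n] x = σ (a * n) x := by
  induction n with
  | zero => simp [hσ.zero]
  | succ n ih =>
    rw [Function.iterate_succ_apply', ih, ← hσ.add]
    congr 1
    push_cast
    ring

theorem term_eq (hτ : ∀ j, IsFlow μ (τ j)) (a : ℝ) (f : Fin m → X → ℂ) (n : ℕ) (x : X) :
    term (fun j => τ j a) f n x = orb τ f x (a * ((n + 1 : ℕ) : ℝ)) := by
  unfold term orb
  refine Finset.prod_congr rfl fun j _ => ?_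
  rw [iter (hτ j)]

theorem term_shift (hτ : ∀ j, IsFlow μ (τ j)) (t s : ℝ) (f : Fin m → X → ℂ) (n : ℕ) (x : X) :
    term (fun j => τ j t) (fun j x => f j (τ j s x)) n x = orb τ f x (s + t * (n + 1)) := by
  unfold term orb
  refine Finset.prod_congr rfl fun j _ => ?_
  simp only []
  rw [iter (hτ j), ← (hτ j).add]
  congr 2
  push_cast
  ring

theorem orb_meas (hτ : ∀ j, IsFlow μ (τ j)) {f : Fin m → X → ℂ} (hf : ∀ j, Measurable (f j)) :
    Measurable fun p : ℝ × X => orb τ f p.2 p.1 :=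
  orb_prod_meas hτ hf

omit [MeasurableSpace X] in
theorem orb_bound {f : Fin m → X → ℂ} {C : ℝ} (hf : ∀ j x, ‖f j x‖ ≤ C) (x : X) (v : ℝ) :
    ‖orb τ f x v‖ ≤ C ^ m := by
  unfold orb
  rw [norm_prod]
  refine (Finset.prod_le_prod (fun _ _ => norm_nonneg _) fun j _ => hf j _).trans ?_
  rw [Finset.prod_const, Finset.card_univ, Fintype.card_fin]

/-- one time: the continuous averages -/
theorem ccvg_of_one (hτ : ∀ j, IsFlow μ (τ j)) [IsProbabilityMeasure μ] {t : ℝ} (ht : 0 < t) {f : Fin m → X → ℂ}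
    {C : ℝ} (hf : ∀ j, Measurable (f j)) (hC : ∀ j x, ‖f j x‖ ≤ C)
    (hall : ∀ s : ℝ, Cvg μ (fun j => τ j t) (fun j x => f j (τ j s x))) : CCvg μ τ f := by
  have hom := orb_meas hτ hf
  have hC0 : 0 ≤ C ^ m := by
    obtain ⟨x⟩ : Nonempty X := by
      by_contra h
      rw [not_nonempty_iff] at h
      have h1 := measure_univ (μ := μ)
      rw [Measure.eq_zero_of_isEmpty μ] at h1
      simp at h1
    exact (norm_nonneg _).trans (orb_bound (τ := τ) hC x 0)
  have h1 : ∀ᵐ x ∂μ, ∀ᵐ s : ℝ, ∃ L, Tendsto (A fun n => orb τ f x (s + t * (n + 1))) atTop (𝓝 L) := by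
    have hms : MeasurableSet {p : ℝ × X | ∃ L, Tendsto (fun N => A (fun n => orb τ f p.2 (p.1 + t * (n + 1))) N)
        atTop (𝓝 L)} := by
      apply measurableSet_exists_tendsto
      intro N
      unfold A
      refine Measurable.const_mul (Finset.measurable_fun_sum _ fun n _ => ?_) _
      exact hom.comp ((measurable_fst.add_const _).prodMk measurable_snd)
    rw [← Measure.ae_ae_comm (μ := (volume : Measure ℝ)) (ν := μ)
      (p := fun s x => ∃ L, Tendsto (A fun n => orb τ f x (s + t * (n + 1))) atTop (𝓝 L)) hms]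
    refine ae_of_all _ fun s => ?_
    filter_upwards [hall s] with x hx
    obtain ⟨L, hL⟩ := hx
    refine ⟨L, hL.congr fun N => ?_⟩
    congr 1
    funext n
    exact term_shift hτ t s f n x
  filter_upwards [h1] with x hx
  -- the function on the line
  set F : ℝ → ℂ := orb τ f x with hF
  have hFm : Measurable F := hom.comp (measurable_id.prodMk measurable_const)
  have hFb : ∀ v, ‖F v‖ ≤ C ^ m := orb_bound hC x
  have hFi : ∀ V W : ℝ, IntervalIntegrable F volume V W := fun V W => by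
    rw [intervalIntegrable_iff]
    exact Measure.integrableOn_of_bounded (M := C ^ m) (by simp) hFm.aestronglyMeasurable
      (ae_of_all _ fun r => hFb r)
  -- the limits
  choose! ℓ hℓ using fun s (hs : ∃ L, Tendsto (A fun n => F (s + t * (n + 1))) atTop (𝓝 L)) => hs
  have h2 : Tendsto (fun N : ℕ => ∫ s in (0 : ℝ)..t, A (fun n => F (s + t * (n + 1))) N) atTop
      (𝓝 (∫ s in (0 : ℝ)..t, ℓ s)) := by
    refine intervalIntegral.tendsto_integral_filter_of_dominated_convergence (fun _ => C ^ m) ?_ ?_ ?_ ?_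
    · refine Eventually.of_forall fun N => ?_
      apply Measurable.aestronglyMeasurable
      unfold A
      refine Measurable.const_mul (Finset.measurable_fun_sum _ fun n _ => ?_) _
      exact hFm.comp (measurable_id.add_const _)
    · exact Eventually.of_forall fun N => ae_of_all _ fun s _ => A_bound (fun n => hFb _) N
    · exact intervalIntegrable_const
    · filter_upwards [hx] with s hs _
      exact hℓ s hs
  -- the blocks
  have h3 : ∀ N : ℕ, ∑ n ∈ range N, ∫ s in (0 : ℝ)..t, F (s + t * (n + 1)) = ∫ v in t..(t * N + t), F v := by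
    intro N
    induction N with
    | zero => simp
    | succ N ih =>
      rw [sum_range_succ, ih, intervalIntegral.integral_comp_add_right (fun v => F v)]
      have e1 : (0 : ℝ) + t * ((N : ℝ) + 1) = t * N + t := by ring
      have e2 : t + t * ((N : ℝ) + 1) = t * ((N + 1 : ℕ) : ℝ) + t := by push_cast; ring
      rw [e1, e2]
      exact intervalIntegral.integral_add_adjacent_intervals (hFi _ _) (hFi _ _)
  have h4 : ∀ N : ℕ, ∫ s in (0 : ℝ)..t, A (fun n => F (s + t * (n + 1))) N =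
      (1 / (N : ℂ)) * ∫ v in t..(t * N + t), F v := by
    intro N
    unfold A
    rw [intervalIntegral.integral_const_mul, one_div]
    congr 1
    rw [← h3, intervalIntegral.integral_finsetSum]
    intro n _
    rw [intervalIntegrable_iff]
    exact Measure.integrableOn_of_bounded (M := C ^ m) (by simp)
      (hFm.comp (measurable_id.add_const _)).aestronglyMeasurable (ae_of_all _ fun r => hFb _)
  simp only [h4] at h2
  have h5 := h2.const_mul (1 / (t : ℂ))
  have htc : (t : ℂ) ≠ 0 := by exact_mod_cast ht.ne'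
  refine ⟨_, cont_of_disc (a := t) ht hC0 (ae_of_all _ hFb) hFi (L := (1 / (t : ℂ)) * ∫ s in (0 : ℝ)..t, ℓ s) ?_⟩
  have h6 : Tendsto (fun N : ℕ => (1 / ((t * N : ℝ) : ℂ)) * (∫ v in (0 : ℝ)..(t * N), F v) -
      (1 / (t : ℂ)) * ((1 / (N : ℂ)) * ∫ v in t..(t * N + t), F v)) atTop (𝓝 0) := by
    have h7 : Tendsto (fun N : ℕ => (2 * C ^ m) / (N : ℝ)) atTop (𝓝 0) :=
      tendsto_const_nhds.div_atTop tendsto_natCast_atTop_atTop
    refine squeeze_zero_norm' ?_ h7
    filter_upwards [eventually_gt_atTop 0] with N hN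
    have hN0 : (0 : ℝ) < N := Nat.cast_pos.2 hN
    have hNc : (N : ℂ) ≠ 0 := Nat.cast_ne_zero.2 hN.ne'
    have e1 : (∫ v in (0 : ℝ)..(t * N), F v) = (∫ v in (0 : ℝ)..t, F v) + ((∫ v in t..(t * N + t), F v) -
        ∫ v in (t * N)..(t * N + t), F v) := by
      have a1 := intervalIntegral.integral_add_adjacent_intervals (hFi 0 t) (hFi t (t * N + t))
      have a2 := intervalIntegral.integral_add_adjacent_intervals (hFi 0 (t * N)) (hFi (t * N) (t * N + t))
      rw [← add_sub_assoc, a1, ← a2]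
      ring
    have e2 : (1 / ((t * N : ℝ) : ℂ)) * (∫ v in (0 : ℝ)..(t * N), F v) -
        (1 / (t : ℂ)) * ((1 / (N : ℂ)) * ∫ v in t..(t * N + t), F v) =
        (1 / ((t * N : ℝ) : ℂ)) * ((∫ v in (0 : ℝ)..t, F v) - ∫ v in (t * N)..(t * N + t), F v) := by
      rw [e1]
      push_cast
      field_simp
      ring
    rw [e2, norm_mul, norm_div, norm_one, Complex.norm_real, Real.norm_of_nonneg (by positivity)]
    have b1 : ‖∫ v in (0 : ℝ)..t, F v‖ ≤ C ^ m * t := by
      have := intervalIntegral.norm_integral_le_of_norm_le_const (a := 0) (b := t) fun v _ => hFb v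
      rwa [sub_zero, abs_of_pos ht] at this
    have b2 : ‖∫ v in (t * N)..(t * N + t), F v‖ ≤ C ^ m * t := by
      have := intervalIntegral.norm_integral_le_of_norm_le_const (a := t * N) (b := t * N + t) fun v _ => hFb v
      rwa [add_sub_cancel_left, abs_of_pos ht] at this
    have b3 := norm_sub_le (∫ v in (0 : ℝ)..t, F v) (∫ v in (t * N)..(t * N + t), F v)
    calc 1 / (t * (N : ℝ)) * ‖(∫ v in (0 : ℝ)..t, F v) - ∫ v in (t * N)..(t * N + t), F v‖
        ≤ 1 / (t * (N : ℝ)) * (C ^ m * t + C ^ m * t) := by gcongr; linarith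
      _ = (2 * C ^ m) / (N : ℝ) := by field_simp; ring
  have h8 := h6.add h5
  rw [zero_add] at h8
  refine h8.congr fun N => ?_
  simp only [sub_add_cancel]

/-- discrete and continuous averages at almost every time -/
theorem disc_iff (hτ : ∀ j, IsFlow μ (τ j)) [IsProbabilityMeasure μ] {f : Fin m → X → ℂ}
    (hf : ∀ j, MemLp (f j) ∞ μ) :
    ∀ᵐ a : ℝ, 0 < a → ∀ᵐ x ∂μ, ∀ L : ℂ,
      (Tendsto (A fun n => term (fun j => τ j a) f n x) atTop (𝓝 L) ↔
        Tendsto (fun V : ℝ => (1 / (V : ℂ)) * ∫ v in (0 : ℝ)..V, orb τ f x v) atTop (𝓝 L)) := by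
  have h1 := bes_conv bes_one mean_one hτ (f := f) (fun j => (hf j).1) (fun j => bdd_of_memLp (hf j))
  filter_upwards [h1] with a ha ha0
  filter_upwards [ha ha0] with x hx L
  have h2 := hx.2 one_ne_zero L
  rw [one_mul] at h2
  have e : (A fun n => term (fun j => τ j a) f n x) = fun N : ℕ => (1 / (N : ℂ)) * ∑ n ∈ Icc 1 N,
      (1 : ℂ) * ∏ j, f j (τ j (a * n) x) := by
    funext N
    have h3 := A_Icc (fun n => orb τ f x (a * n)) N
    have e1 : (fun n => term (fun j => τ j a) f n x) = fun n : ℕ => (fun n : ℕ => orb τ f x (a * n)) (n + 1) := by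
      funext n
      exact term_eq hτ a f n x
    rw [e1, h3]
    simp only [one_mul]
    rfl
  rw [e]
  exact h2

/-- all bounded functions -/
def CvgAll (μ : Measure X) (T : Fin m → X → X) : Prop :=
  ∀ f : Fin m → X → ℂ, (∀ j, BMe (f j)) → Cvg μ T f

/-- from a countable dense family to all functions -/
theorem all_of_dense [IsProbabilityMeasure μ] {T : Fin m → X → X} (hT : ∀ j, MeasurePreserving (T j) μ μ)
    (D : Set (Lp ℂ 1 μ)) (hD : Dense D)
    (h : ∀ (C : ℕ) (d : Fin m → D), Cvg μ T (fun j x => rad C ((d j : Lp ℂ 1 μ) x))) : CvgAll μ T := by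
  intro f hf
  choose hfm CF hCF using hf
  obtain ⟨C, hC⟩ : ∃ C : ℕ, ∀ j x, ‖f j x‖ ≤ C := by
    obtain ⟨C, hC⟩ := exists_nat_ge (∑ l, |CF l|)
    exact ⟨C, fun j x => ((hCF j x).trans (le_abs_self _)).trans
      ((Finset.single_le_sum (f := fun l => |CF l|) (fun _ _ => abs_nonneg _) (Finset.mem_univ j)).trans hC)⟩
  refine Cvg_closed hT (C := C) hfm hC fun ε hε => ?_
  have hint : ∀ j, Integrable (f j) μ := fun j =>
    Integrable.of_bound (hfm j).aestronglyMeasurable C (ae_of_all _ (hC j))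
  have h1 : ∀ j, ∃ d : D, ∫ x, ‖f j x - (d : Lp ℂ 1 μ) x‖ ∂μ ≤ ε / 2 := by
    intro j
    obtain ⟨d, hd, hd2⟩ := Metric.mem_closure_iff.1 (hD ((hint j).toL1 (f j))) (ε / 2) (by positivity)
    refine ⟨⟨d, hd⟩, ?_⟩
    rw [dist_eq_norm, L1.norm_eq_integral_norm] at hd2
    refine le_trans (le_of_eq ?_) hd2.le
    apply integral_congr_ae
    filter_upwards [Lp.coeFn_sub ((hint j).toL1 (f j)) d, (hint j).coeFn_toL1] with x hx1 hx2
    rw [hx1, Pi.sub_apply, hx2]
  choose d hd using h1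
  refine ⟨fun j x => rad C ((d j : Lp ℂ 1 μ) x), fun j => ?_, fun j x => rad_norm (Nat.cast_nonneg C) _,
    fun j => ?_, h C d⟩
  · exact (rad_meas C).comp (Lp.stronglyMeasurable _).measurable
  · have hdi : Integrable (fun x => f j x - (d j : Lp ℂ 1 μ) x) μ := (hint j).sub (L1.integrable_coeFn _)
    calc ∫ x, ‖f j x - rad C ((d j : Lp ℂ 1 μ) x)‖ ∂μ ≤ ∫ x, 2 * ‖f j x - (d j : Lp ℂ 1 μ) x‖ ∂μ := by
          refine integral_mono_of_nonneg (ae_of_all _ fun x => norm_nonneg _) (hdi.norm.const_mul 2)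
            (ae_of_all _ fun x => ?_)
          exact rad_dist (Nat.cast_nonneg C) (hC j x) _
      _ = 2 * ∫ x, ‖f j x - (d j : Lp ℂ 1 μ) x‖ ∂μ := integral_const_mul _ _
      _ ≤ ε := by linarith [hd j]

/-- all bounded functions, continuous averages -/
def CCvgAll (μ : Measure X) (τ : Fin m → ℝ → X → X) : Prop :=
  ∀ f : Fin m → X → ℂ, (∀ j, BMe (f j)) → CCvg μ τ f

theorem ccvgAll_of_one (hτ : ∀ j, IsFlow μ (τ j)) [IsProbabilityMeasure μ] {t : ℝ} (ht : 0 < t)
    (h : CvgAll μ (fun j => τ j t)) : CCvgAll μ τ := by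
  intro f hf
  have hf' := hf
  choose hfm CF hCF using hf'
  refine ccvg_of_one hτ ht (C := ∑ l, |CF l|) hfm (fun j x => ?_) fun s => ?_
  · exact ((hCF j x).trans (le_abs_self _)).trans
      (Finset.single_le_sum (f := fun l => |CF l|) (fun _ _ => abs_nonneg _) (Finset.mem_univ j))
  · exact h _ fun j => ⟨(hfm j).comp ((hτ j).mp _).measurable, CF j, fun x => hCF j _⟩

/-- the continuous averages and almost all times -/
theorem cvgAll_of_ccvgAll (hτ : ∀ j, IsFlow μ (τ j)) [IsProbabilityMeasure μ] [IsSeparable μ]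
    (h : CCvgAll μ τ) : ∀ᵐ a : ℝ, 0 < a → CvgAll μ (fun j => τ j a) := by
  have : Fact ((1 : ℝ≥0∞) ≠ ∞) := ⟨ENNReal.one_ne_top⟩
  obtain ⟨D, hDc, hD⟩ := TopologicalSpace.exists_countable_dense (Lp ℂ 1 μ)
  have : Countable D := hDc.to_subtype
  have h1 : ∀ᵐ a : ℝ, ∀ p : ℕ × (Fin m → D), 0 < a →
      Cvg μ (fun j => τ j a) (fun j x => rad p.1 ((p.2 j : Lp ℂ 1 μ) x)) := by
    rw [ae_all_iff]
    rintro ⟨C, d⟩
    have hb : ∀ j, BMe (fun x => rad C ((d j : Lp ℂ 1 μ) x)) := fun j =>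
      ⟨(rad_meas C).comp (Lp.stronglyMeasurable _).measurable, C, fun x => rad_norm (Nat.cast_nonneg C) _⟩
    filter_upwards [disc_iff hτ (f := fun j x => rad C ((d j : Lp ℂ 1 μ) x)) fun j => (hb j).memLp] with a ha ha0
    filter_upwards [ha ha0, h _ hb] with x hx1 hx2
    obtain ⟨L, hL⟩ := hx2
    exact ⟨L, (hx1 L).2 hL⟩
  filter_upwards [h1] with a ha ha0
  exact all_of_dense (fun j => (hτ j).mp a) D hD fun C d => ha (C, d) ha0

theorem exists_pos {P : ℝ → Prop} (h : ∀ᵐ a : ℝ, P a) : ∃ a : ℝ, 0 < a ∧ P a := by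
  by_contra hne
  push Not at hne
  have h2 : (volume : Measure ℝ) (Set.Ioi 0) ≠ 0 := by simp
  apply h2
  exact measure_mono_null (fun a ha => hne a ha) (ae_iff.mp h)

/-- the continuous averages do not depend on the version of the functions -/
theorem ccvg_congr (hτ : ∀ j, IsFlow μ (τ j)) [IsProbabilityMeasure μ] {f g : Fin m → X → ℂ}
    (hf : ∀ j, MemLp (f j) ∞ μ) (hg : ∀ j, MemLp (g j) ∞ μ) (hfg : ∀ j, f j =ᵐ[μ] g j) (h : CCvg μ τ f) :
    CCvg μ τ g := by
  obtain ⟨a, ha0, ha1, ha2⟩ := exists_pos ((disc_iff hτ hf).and (disc_iff hτ hg))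
  have h1 : Cvg μ (fun j => τ j a) f := by
    filter_upwards [ha1 ha0, h] with x hx1 hx2
    obtain ⟨L, hL⟩ := hx2
    exact ⟨L, (hx1 L).2 hL⟩
  have h2 : Cvg μ (fun j => τ j a) g := Cvg_congr (fun j => (hτ j).mp a) hfg h1
  filter_upwards [ha2 ha0, h2] with x hx1 hx2
  obtain ⟨L, hL⟩ := hx2
  exact ⟨L, (hx1 L).1 hL⟩

theorem zero_one (hτ : ∀ j, IsFlow μ (τ j)) [IsProbabilityMeasure μ] [IsSeparable μ] :
    ((∀ᵐ a : ℝ, 0 < a → ∀ f : Fin m → X → ℂ, (∀ j, MemLp (f j) ∞ μ) → Cvg μ (fun j => τ j a) f) ∧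
      ∀ f : Fin m → X → ℂ, (∀ j, MemLp (f j) ∞ μ) → CCvg μ τ f) ∨
    ((∀ a : ℝ, 0 < a → ¬ ∀ f : Fin m → X → ℂ, (∀ j, MemLp (f j) ∞ μ) → Cvg μ (fun j => τ j a) f) ∧
      ¬ ∀ f : Fin m → X → ℂ, (∀ j, MemLp (f j) ∞ μ) → CCvg μ τ f) := by
  by_cases h : CCvgAll μ τ
  · refine Or.inl ⟨?_, fun f hf => ?_⟩
    · filter_upwards [cvgAll_of_ccvgAll hτ h] with a ha ha0 f hf
      choose g hg hfg using fun j => bme_of_memLp (hf j)
      exact Cvg_congr (fun j => (hτ j).mp a) (fun j => (hfg j).symm) (ha ha0 g hg)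
    · choose g hg hfg using fun j => bme_of_memLp (hf j)
      exact ccvg_congr hτ (fun j => (hg j).memLp) hf (fun j => (hfg j).symm) (h g hg)
  · refine Or.inr ⟨fun a ha0 hc => ?_, fun hc => ?_⟩
    · exact h (ccvgAll_of_one hτ ha0 fun f hf => hc f fun j => (hf j).memLp)
    · exact h fun f hf => hc f fun j => (hf j).memLp

end Pool.Agent.Q183.ZL
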